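import Pool.Agent.W743.BT.Bas
set_option autoImplicit false

/-! From the coordinate form to arbitrary orthonormal bases. -/

namespace Pool.Agent.W743.BT

open Set Filter MeasureTheory
open scoped Topology ContDiff FourierTransform ENNReal RealInnerProductSpace SchwartzMap
open Pool.Agent.W773.BRA (E Bmp chi)

variable {n : ℕ}

/-- the Bochner-Riesz symbol -/
noncomputable def brs (n : ℕ) (δ : ℝ) (ξ : E n) : ℂ := (((max (1 - ‖ξ‖ ^ 2) 0) ^ δ : ℝ) : ℂ)

lemma TT_comp (δ : ℝ) (U : E n ≃ₗᵢ[ℝ] E n) (g : E n → ℂ) (x : E n) :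
    TT (brs n δ) (fun y => g (U y)) x = TT (brs n δ) g (U x) := by
  unfold TT
  have h1 : (fun ξ : E n => brs n δ ξ * 𝓕 (fun y => g (U y)) ξ) =
      (fun ξ : E n => brs n δ ξ * 𝓕 g ξ) ∘ U := by
    funext ξ
    have h2 := Real.fourier_comp_linearIsometry U g ξ
    have h3 : 𝓕 (fun y => g (U y)) ξ = 𝓕 g (U ξ) := h2
    rw [h3, Function.comp_apply]
    unfold brs
    rw [LinearIsometryEquiv.norm_map]
  rw [h1]
  exact Real.fourierInv_comp_linearIsometry U _ x

lemma nice_schwartz (f : 𝓢(ℝ, ℂ)) : Nice (f : ℝ → ℂ) ∧ Integrable (𝓕 (f : ℝ → ℂ)) := by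
  refine ⟨⟨f.continuous.measurable, f.integrable, f.memLp 2⟩, ?_⟩
  have := (𝓕 f).integrable (μ := (volume : Measure ℝ))
  rwa [SchwartzMap.fourier_coe] at this

lemma sq_norm {M : ℕ} (g : Fin M → ℝ → ℂ) {p : ℝ} (hp : 0 < p) :
    (∫⁻ t, sq g t ^ (p / 2)) ^ (1 / p) =
      eLpNorm (fun t => Real.sqrt (∑ k, ‖g k t‖ ^ 2)) (ENNReal.ofReal p) volume := by
  have hpne : ENNReal.ofReal p ≠ 0 := by simpa using hp
  have hptop : ENNReal.ofReal p ≠ ⊤ := ENNReal.ofReal_ne_top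
  rw [eLpNorm_eq_lintegral_rpow_enorm_toReal hpne hptop, ENNReal.toReal_ofReal hp.le]
  congr 1
  apply lintegral_congr
  intro t
  have h0 : 0 ≤ ∑ k, ‖g k t‖ ^ 2 := Finset.sum_nonneg fun k _ => sq_nonneg _
  have h1 : sq g t = ENNReal.ofReal (∑ k, ‖g k t‖ ^ 2) := by
    unfold sq
    rw [ENNReal.ofReal_sum_of_nonneg fun k _ => sq_nonneg _]
    apply Finset.sum_congr rfl
    intro k _
    rw [ENNReal.ofReal_pow (norm_nonneg _), ofReal_norm]
  rw [h1, Real.enorm_of_nonneg (Real.sqrt_nonneg _), Real.sqrt_eq_rpow,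
    ← ENNReal.ofReal_rpow_of_nonneg h0 (by norm_num), ← ENNReal.rpow_mul]
  congr 1
  ring

/-- the estimate in an arbitrary orthonormal basis -/
theorem basis_form (h : S_MAIN) (hn : 2 ≤ n) (p δ : ℝ) (hp : 1 < p) (hδ : 0 < δ)
    (hc : (n : ℝ) * |1 / 2 - 1 / p| - 1 / 2 < δ) : ∃ C : ℝ, 0 < C ∧
    ∀ (b : OrthonormalBasis (Fin n) ℝ (E n)) (M : ℕ) (f : Fin M → Fin n → 𝓢(ℝ, ℂ)),
      eLpNorm (TT (brs n δ) (fun x : E n => ∑ k, ∏ j, f k j ⟪b j, x⟫)) (ENNReal.ofReal p) volume ≤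
        ENNReal.ofReal C * ∏ j, eLpNorm (fun t : ℝ => Real.sqrt (∑ k, ‖f k j t‖ ^ 2))
          (ENNReal.ofReal p) volume := by
  have hp0 : 0 < p := by linarith
  obtain ⟨C, hC, H⟩ := h n hn p δ hp hδ hc
  refine ⟨C, hC, fun b M f => ?_⟩
  have h1 := H M (fun k j => (f k j : ℝ → ℂ)) (fun k j => nice_schwartz (f k j))
  have e1 : (fun x : E n => ∑ k, ∏ j, f k j ⟪b j, x⟫) =
      fun x => tens (fun k j => (f k j : ℝ → ℂ)) (b.repr x) := by
    funext x
    unfold tens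
    apply Finset.sum_congr rfl
    intro k _
    apply Finset.prod_congr rfl
    intro j _
    rw [b.repr_apply_apply]
  have e2 : TT (brs n δ) (fun x : E n => ∑ k, ∏ j, f k j ⟪b j, x⟫) =
      (TT (brs n δ) (tens (fun k j => (f k j : ℝ → ℂ)))) ∘ b.repr := by
    funext x
    rw [e1, TT_comp δ b.repr]
    rfl
  rw [e2]
  have hmp : MeasurePreserving b.repr := b.repr.measurePreserving
  have e3 : eLpNorm ((TT (brs n δ) (tens (fun k j => (f k j : ℝ → ℂ)))) ∘ b.repr)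
      (ENNReal.ofReal p) volume =
      eLpNorm (TT (brs n δ) (tens (fun k j => (f k j : ℝ → ℂ)))) (ENNReal.ofReal p) volume := by
    have hme : MeasurableEmbedding b.repr := b.repr.toHomeomorph.measurableEmbedding
    have h2 := hme.eLpNorm_map_measure (μ := (volume : Measure (E n)))
      (g := TT (brs n δ) (tens (fun k j => (f k j : ℝ → ℂ)))) (p := ENNReal.ofReal p)
    rw [hmp.map_eq] at h2
    exact h2.symm
  rw [e3]
  refine h1.trans (le_of_eq ?_)
  congr 1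
  apply Finset.prod_congr rfl
  intro j _
  exact sq_norm _ hp0

/-- products -/
theorem product_form (p : ℝ) (hp : 1 < p) (b : OrthonormalBasis (Fin n) ℝ (E n))
    (f : Fin n → 𝓢(ℝ, ℂ)) :
    ∏ j, eLpNorm (fun t : ℝ => Real.sqrt (∑ _k : Fin 1, ‖f j t‖ ^ 2)) (ENNReal.ofReal p) volume =
      eLpNorm (fun x : E n => ∏ j, f j ⟪b j, x⟫) (ENNReal.ofReal p) volume := by
  have hp0 : 0 < p := by linarith
  have hpne : ENNReal.ofReal p ≠ 0 := by simpa using hp0
  have hptop : ENNReal.ofReal p ≠ ⊤ := ENNReal.ofReal_ne_top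
  have hmp : MeasurePreserving b.repr := b.repr.measurePreserving
  have hme : MeasurableEmbedding b.repr := b.repr.toHomeomorph.measurableEmbedding
  have e1 : (fun x : E n => ∏ j, f j ⟪b j, x⟫) = (fun y : E n => ∏ j, f j (y j)) ∘ b.repr := by
    funext x
    rw [Function.comp_apply]
    apply Finset.prod_congr rfl
    intro j _
    rw [b.repr_apply_apply]
  rw [e1]
  have h2 := hme.eLpNorm_map_measure (μ := (volume : Measure (E n)))
    (g := (fun y : E n => ∏ j, f j (y j))) (p := ENNReal.ofReal p)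
  rw [hmp.map_eq] at h2
  rw [← h2, eLpNorm_eq_lintegral_rpow_enorm_toReal hpne hptop, ENNReal.toReal_ofReal hp0.le]
  have h3 : ∀ y : E n, ‖∏ j, f j (y j)‖ₑ ^ p = ∏ j, ‖f j (y j)‖ₑ ^ p := by
    intro y
    rw [← ofReal_norm, norm_prod, ENNReal.ofReal_prod_of_nonneg fun j _ => norm_nonneg _]
    simp_rw [ofReal_norm]
    rw [ENNReal.prod_rpow_of_nonneg hp0.le]
  simp_rw [h3]
  rw [lint_E_prod (fun j t => ‖f j t‖ₑ ^ p) fun j => (f j).continuous.measurable.enorm.pow_const p,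
    ← ENNReal.prod_rpow_of_nonneg (by positivity)]
  apply Finset.prod_congr rfl
  intro j _
  rw [eLpNorm_eq_lintegral_rpow_enorm_toReal hpne hptop, ENNReal.toReal_ofReal hp0.le]
  congr 1
  apply lintegral_congr
  intro t
  congr 1
  rw [Finset.univ_unique, Finset.sum_singleton, Real.sqrt_sq (norm_nonneg _), enorm_norm]

end Pool.Agent.W743.BT
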