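import Pool.Agent.W743.BT.Loc2
import Pool.Agent.W743.BT.Fin
import Pool.Agent.W108.BT.Marc
import Pool.Agent.W21.BT.Hyv
import Pool.Agent.W976.BT.HYN
import Pool.Agent.W976.BT.NearB
import Pool.Agent.W32.BT.D1
import Pool.Agent.W806.BT.TK
import Pool.Agent.W327.BT.Tenf
import Pool.Agent.W363.BT.Piece
import Pool.Agent.W214.BT.Main
import Pool.Agent.W505.BT.SL
import Pool.Agent.W505.BT.Meas
import Pool.Agent.W505.BT.MK
import Pool.Agent.W505.BT.Young
import Pool.Agent.W924.BTKer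
import Pool.Agent.W168.BT.NearA
set_option autoImplicit false

/-! Assembly. -/

namespace Pool.Agent.W743.BT

theorem all_main : S_MAIN := by
  have hMarc : S_MARC := Pool.Agent.W108.BT.marc
  have hHYV : S_HYV := Pool.Agent.W21.BT.hyv hMarc
  have hHYN : S_HYN := Pool.Agent.W976.BT.hyn hMarc
  have hSL : S_SL := Pool.Agent.W505.BT.sl
  have hMEAS : S_MEAS := Pool.Agent.W505.BT.meas
  have hMK : S_MK := Pool.Agent.W505.BT.mkf
  have hD1 : S_D1 := Pool.Agent.W32.BT.d1
  have hKER : S_KER := Pool.Agent.W924.BTK.ker hD1 hMK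
  have hTK : S_TK := Pool.Agent.W806.BT.tk
  have hTENF : S_TENF := W327.BT.tenf
  have hY : S_YOUNG := Pool.Agent.W505.BT.young
  have hA : S_NEARA := Pool.Agent.W168.BT.neara hHYV hSL hMEAS hMK hTK hTENF
  have hB : S_NEARB := Pool.Agent.W976.BT.nearb hHYN hSL hMEAS hMK hTK hTENF
  have hL : S_LOC := loc hA hB hKER hMK hTK hTENF hY
  have hP : S_PIECE := Pool.Agent.W363.BT.piece hL hMK hTK hTENF
  exact Pool.Agent.W214.BT.main hP hTK hTENF

end Pool.Agent.W743.BT
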