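import Pool.Agent.W743.BT.Defs
set_option autoImplicit false

/-! Small helpers: integrals of products, Cauchy-Schwarz for sums of products. -/

namespace Pool.Agent.W743.BT

open Set Filter MeasureTheory
open scoped Topology ContDiff FourierTransform ENNReal RealInnerProductSpace
open Pool.Agent.W773.BRA (E Bmp chi)

theorem lintegral_fin_prod {n : ℕ} (f : Fin n → ℝ → ℝ≥0∞) (hf : ∀ i, Measurable (f i)) :
    ∫⁻ x : Fin n → ℝ, ∏ i, f i (x i) = ∏ i, ∫⁻ t, f i t := by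
  induction n with
  | zero =>
    simp only [Finset.univ_eq_empty, Finset.prod_empty, lintegral_one]
    rw [volume_pi, Measure.pi_of_empty]
    simp
  | succ n ih =>
    have hmp := (volume_preserving_piFinSuccAbove (fun _ : Fin (n + 1) => ℝ) 0).symm
    rw [← hmp.lintegral_comp_emb (MeasurableEquiv.measurableEmbedding _)]
    have hm : Measurable fun y : Fin n → ℝ => ∏ i : Fin n, f i.succ (y i) :=
      Finset.measurable_prod _ fun i _ => (hf _).comp (measurable_pi_apply i)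
    have key : (fun z : ℝ × (Fin n → ℝ) => ∏ i, f i
        ((MeasurableEquiv.piFinSuccAbove (fun _ : Fin (n + 1) => ℝ) 0).symm z i)) =
        fun z => f 0 z.1 * ∏ i : Fin n, f i.succ (z.2 i) := by
      funext z
      rw [Fin.prod_univ_succ]
      simp [MeasurableEquiv.piFinSuccAbove, Fin.insertNthEquiv]
    rw [key, Measure.volume_eq_prod, lintegral_prod_mul (hf 0).aemeasurable hm.aemeasurable,
      ih (fun i => f i.succ) (fun i => hf _), Fin.prod_univ_succ]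

/-- integrals over `E n` in coordinates -/
theorem lint_E {n : ℕ} (G : (Fin n → ℝ) → ℝ≥0∞) :
    ∫⁻ x : E n, G (fun j => x j) = ∫⁻ y : Fin n → ℝ, G y := by
  have h := (EuclideanSpace.volume_preserving_symm_measurableEquiv_toLp (Fin n))
  have := h.lintegral_comp_emb (MeasurableEquiv.measurableEmbedding _) G
  exact this

theorem lint_E_prod {n : ℕ} (f : Fin n → ℝ → ℝ≥0∞) (hf : ∀ i, Measurable (f i)) :
    ∫⁻ x : E n, ∏ i, f i (x i) = ∏ i, ∫⁻ t, f i t := by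
  rw [lint_E (fun y => ∏ i, f i (y i)), lintegral_fin_prod f hf]

/-- Cauchy-Schwarz for sums of at least two factors -/
theorem sum_prod_sq_le {n M : ℕ} (hn : 2 ≤ n) (a : Fin M → Fin n → ℝ) (ha : ∀ k j, 0 ≤ a k j) :
    (∑ k, ∏ j, a k j) ^ 2 ≤ ∏ j, ∑ k, a k j ^ 2 := by
  obtain ⟨m, rfl⟩ : ∃ m, n = m + 2 := ⟨n - 2, by omega⟩
  have hS : ∀ j, 0 ≤ ∑ k, a k j ^ 2 := fun j => Finset.sum_nonneg fun k _ => sq_nonneg _
  have h1 : ∀ k, ∏ j, a k j ≤ a k 0 * a k 1 * ∏ j : Fin m, Real.sqrt (∑ k, a k j.succ.succ ^ 2) := by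
    intro k
    rw [Fin.prod_univ_succ, Fin.prod_univ_succ, ← mul_assoc]
    have : (Fin.succ 0 : Fin (m + 2)) = 1 := rfl
    rw [this]
    apply mul_le_mul_of_nonneg_left _ (mul_nonneg (ha _ _) (ha _ _))
    apply Finset.prod_le_prod (fun j _ => ha _ _)
    intro j _
    apply Real.le_sqrt_of_sq_le
    exact Finset.single_le_sum (f := fun k => a k j.succ.succ ^ 2) (fun k _ => sq_nonneg _)
      (Finset.mem_univ k)
  set R : ℝ := ∏ j : Fin m, Real.sqrt (∑ k, a k j.succ.succ ^ 2) with hR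
  have hR0 : 0 ≤ R := Finset.prod_nonneg fun j _ => Real.sqrt_nonneg _
  have hR2 : R ^ 2 = ∏ j : Fin m, ∑ k, a k j.succ.succ ^ 2 := by
    rw [hR, ← Finset.prod_pow]
    exact Finset.prod_congr rfl fun j _ => Real.sq_sqrt (hS _)
  have h2 : ∑ k, ∏ j, a k j ≤ (∑ k, a k 0 * a k 1) * R := by
    rw [Finset.sum_mul]
    exact Finset.sum_le_sum fun k _ => h1 k
  have h3 : (∑ k, a k 0 * a k 1) ^ 2 ≤ (∑ k, a k 0 ^ 2) * ∑ k, a k 1 ^ 2 :=
    Finset.sum_mul_sq_le_sq_mul_sq _ _ _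
  have h0 : 0 ≤ ∑ k, ∏ j, a k j :=
    Finset.sum_nonneg fun k _ => Finset.prod_nonneg fun j _ => ha _ _
  calc (∑ k, ∏ j, a k j) ^ 2 ≤ ((∑ k, a k 0 * a k 1) * R) ^ 2 := pow_le_pow_left₀ h0 h2 2
    _ = (∑ k, a k 0 * a k 1) ^ 2 * R ^ 2 := mul_pow _ _ _
    _ ≤ ((∑ k, a k 0 ^ 2) * ∑ k, a k 1 ^ 2) * R ^ 2 :=
        mul_le_mul_of_nonneg_right h3 (sq_nonneg _)
    _ = _ := by
        rw [hR2, Fin.prod_univ_succ, Fin.prod_univ_succ, ← mul_assoc]
        rfl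

/-- the pointwise bound for sums of products -/
theorem tens_sq_le {n M : ℕ} (hn : 2 ≤ n) (g : Fin M → Fin n → ℂ) :
    ‖∑ k, ∏ j, g k j‖ₑ ^ 2 ≤ ∏ j, ∑ k, ‖g k j‖ₑ ^ 2 := by
  have h1 : ‖∑ k, ∏ j, g k j‖ ≤ ∑ k, ∏ j, ‖g k j‖ :=
    (norm_sum_le _ _).trans (Finset.sum_le_sum fun k _ => (norm_prod _ _).le)
  have h2 : ‖∑ k, ∏ j, g k j‖ ^ 2 ≤ ∏ j, ∑ k, ‖g k j‖ ^ 2 :=
    (pow_le_pow_left₀ (norm_nonneg _) h1 2).trans
      (sum_prod_sq_le hn (fun k j => ‖g k j‖) fun k j => norm_nonneg _)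
  have h3 : ∀ z : ℂ, ‖z‖ₑ ^ 2 = ENNReal.ofReal (‖z‖ ^ 2) := fun z => by
    rw [ENNReal.ofReal_pow (norm_nonneg _), ofReal_norm]
  rw [h3]
  refine (ENNReal.ofReal_le_ofReal h2).trans (le_of_eq ?_)
  rw [ENNReal.ofReal_prod_of_nonneg fun j _ => Finset.sum_nonneg fun k _ => sq_nonneg _]
  apply Finset.prod_congr rfl
  intro j _
  rw [ENNReal.ofReal_sum_of_nonneg fun k _ => sq_nonneg _]
  exact Finset.sum_congr rfl fun k _ => (h3 _).symm

theorem sq_meas {M : ℕ} {g : Fin M → ℝ → ℂ} (hg : ∀ k, Measurable (g k)) : Measurable (sq g) := by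
  unfold sq
  exact Finset.measurable_sum _ fun k _ => (hg k).enorm.pow_const 2

/-- the `L^p` norm of a sum of products -/
theorem tens_rpow_le {n M : ℕ} (hn : 2 ≤ n) {p : ℝ} (hp : 0 < p) (g : Fin M → Fin n → ℝ → ℂ)
    (x : E n) : ‖tens g x‖ₑ ^ p ≤ ∏ j, sq (fun k => g k j) (x j) ^ (p / 2) := by
  have h1 := tens_sq_le hn (fun k j => g k j (x j))
  have h2 : ‖tens g x‖ₑ ^ p = (‖tens g x‖ₑ ^ 2) ^ (p / 2) := by
    rw [← ENNReal.rpow_natCast, ← ENNReal.rpow_mul]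
    congr 1
    push_cast
    ring
  rw [h2, ENNReal.prod_rpow_of_nonneg (by positivity)]
  exact ENNReal.rpow_le_rpow h1 (by positivity)

end Pool.Agent.W743.BT
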