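import Pool.Agent.W773.BRA.B
set_option autoImplicit false

/-!
# Bochner-Riesz means of (sums of) products of functions of one coordinate: definitions

`E n` is `EuclideanSpace ℝ (Fin n)`, `Bmp h` says that `h` is smooth and vanishes outside
`[1/2, 2]`, `chi` is a smooth cutoff (`1` for `t ≤ 1`, `0` for `2 ≤ t`).
-/

namespace Pool.Agent.W743.BT

open Set Filter MeasureTheory
open scoped Topology ContDiff FourierTransform ENNReal RealInnerProductSpace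
open Pool.Agent.W773.BRA (E Bmp chi)

/-- even smooth cutoff: `1` for `|t| ≤ 1`, `0` for `2 ≤ t ^ 2` -/
noncomputable def th (t : ℝ) : ℝ := chi (t ^ 2)

/-- dyadic partition of unity on `[-1,1]`: level `i < K` lives on `2^(-i)/2 ≤ |t| ≤ 2 * 2^(-i)`,
level `K` on `|t| ≤ 2 * 2^(-K)` -/
noncomputable def w (K i : ℕ) (t : ℝ) : ℝ :=
  if i < K then th (2 ^ i * t) - th (2 ^ (i + 1) * t) else th (2 ^ K * t)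

/-- product of the weights of the coordinates -/
noncomputable def W {n : ℕ} (K : ℕ) (κ : Fin n → ℕ) (ξ : E n) : ℝ := ∏ j, w K (κ j) (ξ j)

/-- the symbol of a box piece -/
noncomputable def mk {n : ℕ} (h : ℝ → ℝ) (N : ℝ) (K : ℕ) (κ : Fin n → ℕ) (ξ : E n) : ℂ :=
  ((h (N * (1 - ‖ξ‖ ^ 2)) * W K κ ξ : ℝ) : ℂ)

/-- Fourier multiplier operator with symbol `m` -/
noncomputable def TT {n : ℕ} (m g : E n → ℂ) (x : E n) : ℂ :=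
  𝓕⁻ (fun ξ : E n => m ξ * 𝓕 g ξ) x

/-- sum of products of functions of one coordinate -/
noncomputable def tens {n M : ℕ} (g : Fin M → Fin n → ℝ → ℂ) (x : E n) : ℂ :=
  ∑ k, ∏ j, g k j (x j)

/-- the square of the square function -/
noncomputable def sq {M : ℕ} (g : Fin M → ℝ → ℂ) (t : ℝ) : ℝ≥0∞ := ∑ k, ‖g k t‖ₑ ^ 2

/-- admissible functions of one variable -/
def Nice (g : ℝ → ℂ) : Prop := Measurable g ∧ Integrable g ∧ MemLp g 2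

/-- the side length of the boxes of level `i` (`Λ` is the number called `N ^ ε` in the proofs) -/
noncomputable def Len (N Λ : ℝ) (i : ℕ) : ℝ := Λ * (N * (1 / 2 : ℝ) ^ i)

/-- the set which contains the support of the symbol `mk h N K κ` -/
def A {n : ℕ} (N : ℝ) (K : ℕ) (κ : Fin n → ℕ) : Set (Fin n → ℝ) :=
  {ξ | 1 / 2 ≤ N * (1 - ∑ j, ξ j ^ 2) ∧ N * (1 - ∑ j, ξ j ^ 2) ≤ 2 ∧
    ∀ j, |ξ j| ≤ 2 * (1 / 2 : ℝ) ^ κ j ∧ (κ j < K → (1 / 2 : ℝ) ^ κ j / 2 ≤ |ξ j|)}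

/-- the growth exponent -/
noncomputable def Ep (n : ℕ) (p : ℝ) : ℝ := max 0 ((n : ℝ) * |1 / 2 - 1 / p| - 1 / 2)

/-! ## The statements -/

/-- MARC. Abstract interpolation between `L¹ → L^∞` and `L² → L²`. -/
def S_MARC : Prop := ∀ p : ℝ, 1 < p → p < 2 → ∃ C : ℝ, 0 < C ∧
  ∀ {X Y : Type} [MeasurableSpace X] [MeasurableSpace Y] (μ : Measure X) (ν : Measure Y)
    [SFinite μ] [SFinite ν] (f : X → ℝ≥0∞) (F : Y → ℝ≥0∞), Measurable f → Measurable F →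
    (∀ t : ℝ≥0∞, 0 < t → t ≠ ⊤ → ∃ v : Y → ℝ≥0∞, Measurable v ∧
      (∀ᵐ y ∂ν, F y ≤ (∫⁻ x in {x | t < f x}, f x ∂μ) + v y) ∧
      ∫⁻ y, v y ^ 2 ∂ν ≤ ∫⁻ x in {x | f x ≤ t}, f x ^ 2 ∂μ) →
    ∫⁻ y, F y ^ (p / (p - 1)) ∂ν ≤ ENNReal.ofReal C * (∫⁻ x, f x ^ p ∂μ) ^ (1 / (p - 1))

/-- HYV. Hausdorff-Young for vector valued functions of one variable. -/
def S_HYV : Prop := ∀ p : ℝ, 1 < p → p ≤ 2 → ∃ C : ℝ, 0 < C ∧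
  ∀ (M : ℕ) (g : Fin M → ℝ → ℂ), (∀ k, Nice (g k)) →
    ∫⁻ t, (sq (fun k => 𝓕 (g k)) t) ^ (p / (p - 1) / 2) ≤
      ENNReal.ofReal C * (∫⁻ t, sq g t ^ (p / 2)) ^ (1 / (p - 1))

/-- HYN. Hausdorff-Young on `E n`. -/
def S_HYN : Prop := ∀ (n : ℕ) (p : ℝ), 1 < p → p ≤ 2 → ∃ C : ℝ, 0 < C ∧
  ∀ G : E n → ℂ, Integrable G → MemLp G 2 →
    ∫⁻ x, ‖𝓕⁻ G x‖ₑ ^ (p / (p - 1)) ≤
      ENNReal.ofReal C * (∫⁻ ξ, ‖G ξ‖ₑ ^ p) ^ (1 / (p - 1))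

/-- SL. A set whose one-dimensional slices are short (Hoelder's inequality). -/
def S_SL : Prop := ∀ n : ℕ, 2 ≤ n → ∀ (B : Set (Fin n → ℝ)), MeasurableSet B →
  ∀ σ : Fin n → ℝ≥0∞,
    (∀ (j : Fin n) (x : Fin n → ℝ), volume {t : ℝ | Function.update x j t ∈ B} ≤ σ j) →
    ∀ F : Fin n → ℝ → ℝ≥0∞, (∀ j, Measurable (F j)) → ∀ α : ℝ, 0 ≤ α → (n : ℝ) * α ≤ 1 →
      ∫⁻ x in B, ∏ j, F j (x j) ≤
        ∏ j, (σ j ^ α * (∫⁻ t, F j t ^ (1 / (1 - α))) ^ (1 - α))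

/-- MEAS. The slices of `A N K κ` are short. -/
def S_MEAS : Prop := ∀ (n : ℕ) (N : ℝ) (K : ℕ) (κ : Fin n → ℕ), (4 : ℝ) ^ K ≤ N →
  N < 4 ^ (K + 1) → (∀ j, κ j ≤ K) → MeasurableSet (A N K κ) ∧
    ∀ (j : Fin n) (x : Fin n → ℝ), volume {t : ℝ | Function.update x j t ∈ A N K κ} ≤
      ENNReal.ofReal (16 / (N * (1 / 2 : ℝ) ^ κ j))

/-- MK. Elementary facts on the symbols. -/
def S_MK : Prop := ∀ (n : ℕ) (h : ℝ → ℝ), Bmp h → ∀ (N : ℝ) (K : ℕ), 1 ≤ N →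
  (∀ κ : Fin n → ℕ, ContDiff ℝ ∞ (mk (n := n) h N K κ) ∧
    HasCompactSupport (mk (n := n) h N K κ) ∧
    (∀ ξ : E n, (∀ j, κ j ≤ K) → mk h N K κ ξ ≠ 0 → (fun j => ξ j) ∈ A N K κ ∧ ‖ξ‖ ≤ 1) ∧
    ∀ (B : ℝ), (∀ u, |h u| ≤ B) → ∀ ξ : E n, ‖mk h N K κ ξ‖ ≤ B) ∧
  ∀ ξ : E n, ∑ κ ∈ Fintype.piFinset (fun _ : Fin n => Finset.range (K + 1)), mk h N K κ ξ =
    ((h (N * (1 - ‖ξ‖ ^ 2)) : ℝ) : ℂ)

/-- D1. Derivatives of the symbol in one variable. -/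
def S_D1 : Prop := ∀ h : ℝ → ℝ, Bmp h → ∀ a : ℕ, ∃ C : ℝ, 0 < C ∧
  ∀ (c N : ℝ) (K i : ℕ), 1 ≤ N → (4 : ℝ) ^ K ≤ N → i ≤ K →
    ContDiff ℝ ∞ (fun t : ℝ => h (c - N * t ^ 2) * w K i t) ∧
    (∀ t : ℝ, 2 * (1 / 2 : ℝ) ^ i < |t| → h (c - N * t ^ 2) * w K i t = 0) ∧
    ∀ t : ℝ, |iteratedDeriv a (fun t : ℝ => h (c - N * t ^ 2) * w K i t) t| ≤
      C * (N * (1 / 2 : ℝ) ^ i) ^ a

/-- KER. The kernels are negligible far out. -/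
def S_KER : Prop := ∀ (n : ℕ) (h : ℝ → ℝ), Bmp h → ∀ ε : ℝ, 0 < ε → ∃ C : ℝ, 0 < C ∧
  ∀ (N : ℝ) (K : ℕ) (κ : Fin n → ℕ), 1 ≤ N → (4 : ℝ) ^ K ≤ N → (∀ j, κ j ≤ K) →
    ∫⁻ x in {x : E n | ∃ j, Len N (N ^ ε) (κ j) ≤ |x j|}, ‖𝓕⁻ (mk (n := n) h N K κ) x‖ₑ ≤
      ENNReal.ofReal C

/-- TK. Multiplier operators with compactly supported symbol. -/
def S_TK : Prop := ∀ (n : ℕ) (m : E n → ℂ), Continuous m → HasCompactSupport m →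
  (∀ g : E n → ℂ, Integrable g →
    Continuous (TT m g) ∧
    Integrable (fun ξ : E n => m ξ * 𝓕 g ξ) ∧ MemLp (fun ξ : E n => m ξ * 𝓕 g ξ) 2 ∧
    (∀ x, TT m g x = ∫ y, 𝓕⁻ m (x - y) * g y) ∧
    ∫⁻ x, ‖TT m g x‖ₑ ^ 2 = ∫⁻ ξ, ‖m ξ‖ₑ ^ 2 * ‖𝓕 g ξ‖ₑ ^ 2)

/-- TENF. Sums of products. -/
def S_TENF : Prop := ∀ (n M : ℕ) (g : Fin M → Fin n → ℝ → ℂ), (∀ k j, Nice (g k j)) →
  Measurable (tens g) ∧ Integrable (tens g) ∧ MemLp (tens g) 2 ∧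
  (∀ ξ : E n, 𝓕 (tens g) ξ = ∑ k, ∏ j, 𝓕 (g k j) (ξ j))

/-- The local estimate with exponent `p` and profile `h`. -/
def Near (n : ℕ) (p : ℝ) (h : ℝ → ℝ) : Prop := ∃ C : ℝ, 0 < C ∧
  ∀ (N : ℝ) (K : ℕ) (κ : Fin n → ℕ) (Λ : ℝ) (M : ℕ) (g : Fin M → Fin n → ℝ → ℂ) (c : Fin n → ℝ),
    1 ≤ N → (4 : ℝ) ^ K ≤ N → N < 4 ^ (K + 1) → (∀ j, κ j ≤ K) → 1 ≤ Λ →
    (∀ k j, Nice (g k j)) →
    (∀ k j t, 3 / 2 * Len N Λ (κ j) < |t - c j| → g k j t = 0) →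
    ∫⁻ x in {x : E n | ∀ j, |x j - c j| ≤ Len N Λ (κ j) / 2},
        ‖TT (mk h N K κ) (tens g) x‖ₑ ^ p ≤
      ENNReal.ofReal (C * Λ ^ ((n : ℝ) * p) * N ^ (p * Ep n p)) *
        ∏ j, ∫⁻ t, sq (fun k => g k j) t ^ (p / 2)

/-- NEARA. The local estimate for `p ≤ 2`. -/
def S_NEARA : Prop := ∀ n : ℕ, 2 ≤ n → ∀ p : ℝ, 1 < p → p ≤ 2 → ∀ h : ℝ → ℝ, Bmp h → Near n p h

/-- NEARB. The local estimate for `2 ≤ p`. -/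
def S_NEARB : Prop := ∀ n : ℕ, 2 ≤ n → ∀ p : ℝ, 2 ≤ p → ∀ h : ℝ → ℝ, Bmp h → Near n p h

/-- YOUNG. Convolution with an integrable kernel. -/
def S_YOUNG : Prop := ∀ (n : ℕ) (p : ℝ), 1 ≤ p → ∀ k F : E n → ℝ≥0∞, Measurable k →
  Measurable F → ∫⁻ x, (∫⁻ y, k (x - y) * F y) ^ p ≤ (∫⁻ x, k x) ^ p * ∫⁻ y, F y ^ p

/-- LOC. One box piece. -/
def S_LOC : Prop := ∀ (n : ℕ), 2 ≤ n → ∀ p : ℝ, 1 < p → ∀ h : ℝ → ℝ, Bmp h → ∀ ε : ℝ, 0 < ε →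
  ∃ C : ℝ, 0 < C ∧
  ∀ (N : ℝ) (K : ℕ) (κ : Fin n → ℕ) (M : ℕ) (f : Fin M → Fin n → ℝ → ℂ),
    1 ≤ N → (4 : ℝ) ^ K ≤ N → N < 4 ^ (K + 1) → (∀ j, κ j ≤ K) →
    (∀ k j, Nice (f k j)) →
    ∫⁻ x : E n, ‖TT (mk h N K κ) (tens f) x‖ₑ ^ p ≤
      ENNReal.ofReal (C * N ^ (p * Ep n p + ε)) *
        ∏ j, ∫⁻ t, sq (fun k => f k j) t ^ (p / 2)

/-- PIECE. One dyadic shell. -/
def S_PIECE : Prop := ∀ (n : ℕ), 2 ≤ n → ∀ p : ℝ, 1 < p → ∀ h : ℝ → ℝ, Bmp h →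
  ∀ ε : ℝ, 0 < ε → ∃ C : ℝ, 0 < C ∧
  ∀ (l : ℕ) (M : ℕ) (f : Fin M → Fin n → ℝ → ℂ), (∀ k j, Nice (f k j)) →
    eLpNorm (TT (fun ξ : E n => ((h (2 ^ l * (1 - ‖ξ‖ ^ 2)) : ℝ) : ℂ)) (tens f))
        (ENNReal.ofReal p) volume ≤
      ENNReal.ofReal (C * 2 ^ ((l : ℝ) * (Ep n p + ε))) *
        ∏ j, (∫⁻ t, sq (fun k => f k j) t ^ (p / 2)) ^ (1 / p)

/-- MAIN. The Bochner-Riesz operator on sums of products. -/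
def S_MAIN : Prop := ∀ (n : ℕ), 2 ≤ n → ∀ p δ : ℝ, 1 < p → 0 < δ →
  (n : ℝ) * |1 / 2 - 1 / p| - 1 / 2 < δ → ∃ C : ℝ, 0 < C ∧
  ∀ (M : ℕ) (f : Fin M → Fin n → ℝ → ℂ), (∀ k j, Nice (f k j) ∧ Integrable (𝓕 (f k j))) →
    eLpNorm (TT (fun ξ : E n => (((max (1 - ‖ξ‖ ^ 2) 0) ^ δ : ℝ) : ℂ)) (tens f))
        (ENNReal.ofReal p) volume ≤
      ENNReal.ofReal C * ∏ j, (∫⁻ t, sq (fun k => f k j) t ^ (p / 2)) ^ (1 / p)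

end Pool.Agent.W743.BT
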