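import Pool.Agent.W743.BT.Bas
set_option autoImplicit false

/-! One box piece: localisation to boxes. -/

namespace Pool.Agent.W743.BT

open Set Filter MeasureTheory
open scoped Topology ContDiff FourierTransform ENNReal RealInnerProductSpace
open Pool.Agent.W773.BRA (E Bmp chi)

variable {n : ℕ}

/-- the box with centre `z` and side lengths `L` -/
def Box (L : Fin n → ℝ) (z : Fin n → ℝ) : Set (E n) := {x | ∀ j, |x j - z j| ≤ L j / 2}

lemma box_meas (L z : Fin n → ℝ) : MeasurableSet (Box L z) := by
  have : Box L z = ⋂ j, {x : E n | |x j - z j| ≤ L j / 2} := by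
    ext x; simp [Box]
  rw [this]
  refine MeasurableSet.iInter fun j => ?_
  exact measurableSet_le (by fun_prop) measurable_const

/-- averaging over the centre of the box -/
lemma avg_box {L : Fin n → ℝ} (G : E n → ℝ≥0∞) (hG : Measurable G) :
    ∫⁻ z : Fin n → ℝ, ∫⁻ x in Box L z, G x = (∏ j, ENNReal.ofReal (L j)) * ∫⁻ x, G x := by
  have hset : MeasurableSet {q : (Fin n → ℝ) × E n | ∀ j, |q.2 j - q.1 j| ≤ L j / 2} := by
    have : {q : (Fin n → ℝ) × E n | ∀ j, |q.2 j - q.1 j| ≤ L j / 2} =
        ⋂ j, {q : (Fin n → ℝ) × E n | |q.2 j - q.1 j| ≤ L j / 2} := by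
      ext x; simp
    rw [this]
    refine MeasurableSet.iInter fun j => ?_
    apply measurableSet_le _ measurable_const
    have h1 : Measurable (fun q : (Fin n → ℝ) × E n => q.2 j - q.1 j) := by
      apply Measurable.sub
      · exact (by fun_prop : Measurable (fun x : E n => x j)).comp measurable_snd
      · exact (measurable_pi_apply j).comp measurable_fst
    exact h1.abs
  have h1 : ∀ z : Fin n → ℝ, ∫⁻ x in Box L z, G x =
      ∫⁻ x : E n, {q : (Fin n → ℝ) × E n | ∀ j, |q.2 j - q.1 j| ≤ L j / 2}.indicator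
        (fun q => G q.2) (z, x) := by
    intro z
    rw [← lintegral_indicator (box_meas L z)]
    apply lintegral_congr
    intro x
    by_cases hx : x ∈ Box L z
    · rw [indicator_of_mem hx, indicator_of_mem]
      exact hx
    · rw [indicator_of_notMem hx, indicator_of_notMem]
      exact hx
  simp_rw [h1]
  rw [lintegral_lintegral_swap]
  · rw [← lintegral_const_mul _ hG]
    apply lintegral_congr
    intro x
    have h2 : ∀ z : Fin n → ℝ, {q : (Fin n → ℝ) × E n | ∀ j, |q.2 j - q.1 j| ≤ L j / 2}.indicator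
        (fun q => G q.2) (z, x) =
        (Set.pi univ fun j => Icc (x j - L j / 2) (x j + L j / 2)).indicator (fun _ => G x) z := by
      intro z
      by_cases hz : z ∈ Set.pi univ fun j => Icc (x j - L j / 2) (x j + L j / 2)
      · rw [indicator_of_mem hz, indicator_of_mem]
        intro j
        have := hz j (mem_univ _)
        rw [abs_le]
        constructor <;> linarith [this.1, this.2]
      · rw [indicator_of_notMem hz, indicator_of_notMem]
        intro hcon
        apply hz
        intro j _
        have := abs_le.1 (hcon j)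
        constructor <;> linarith [this.1, this.2]
    simp_rw [h2]
    rw [lintegral_indicator (MeasurableSet.univ_pi fun j => measurableSet_Icc), lintegral_const,
      Measure.restrict_apply_univ, volume_pi, Measure.pi_pi, mul_comm]
    congr 1
    apply Finset.prod_congr rfl
    intro j _
    rw [Real.volume_Icc]
    congr 1
    ring
  · exact ((hG.comp measurable_snd).indicator hset).aemeasurable

/-- truncation to an interval -/
noncomputable def cut (c r : ℝ) (f : ℝ → ℂ) : ℝ → ℂ := (Icc (c - r) (c + r)).indicator f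

lemma cut_nice {c r : ℝ} {f : ℝ → ℂ} (hf : Nice f) : Nice (cut c r f) :=
  ⟨hf.1.indicator measurableSet_Icc, hf.2.1.indicator measurableSet_Icc,
    hf.2.2.indicator measurableSet_Icc⟩

lemma cut_zero {c r t : ℝ} {f : ℝ → ℂ} (h : r < |t - c|) : cut c r f t = 0 := by
  apply indicator_of_notMem
  intro hm
  have : |t - c| ≤ r := abs_le.2 ⟨by linarith [hm.1], by linarith [hm.2]⟩
  linarith

lemma cut_eq {c r t : ℝ} {f : ℝ → ℂ} (h : |t - c| ≤ r) : cut c r f t = f t := by
  apply indicator_of_mem
  have := abs_le.1 h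
  constructor <;> linarith [this.1, this.2]

/-- averaging of the truncated square functions -/
lemma avg_cut {M : ℕ} (f : Fin M → ℝ → ℂ) (hf : ∀ k, Measurable (f k)) {p r : ℝ} (hp : 0 < p)
    (hr : 0 ≤ r) :
    Measurable (fun c : ℝ => ∫⁻ t, sq (fun k => cut c r (f k)) t ^ (p / 2)) ∧
    ∫⁻ c : ℝ, ∫⁻ t, sq (fun k => cut c r (f k)) t ^ (p / 2) =
      ENNReal.ofReal (2 * r) * ∫⁻ t, sq f t ^ (p / 2) := by
  have hset : MeasurableSet {q : ℝ × ℝ | |q.2 - q.1| ≤ r} :=
    measurableSet_le (measurable_snd.sub measurable_fst).abs measurable_const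
  have e : ∀ c t : ℝ, sq (fun k => cut c r (f k)) t ^ (p / 2) =
      {q : ℝ × ℝ | |q.2 - q.1| ≤ r}.indicator (fun q => sq f q.2 ^ (p / 2)) (c, t) := by
    intro c t
    by_cases h : |t - c| ≤ r
    · rw [indicator_of_mem (show (c, t) ∈ {q : ℝ × ℝ | |q.2 - q.1| ≤ r} from h)]
      unfold sq
      congr 1
      apply Finset.sum_congr rfl
      intro k _
      beta_reduce
      rw [cut_eq h]
    · rw [indicator_of_notMem (show (c, t) ∉ {q : ℝ × ℝ | |q.2 - q.1| ≤ r} from h)]
      unfold sq
      rw [Finset.sum_eq_zero]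
      · rw [ENNReal.zero_rpow_of_pos (by positivity)]
      · intro k _
        beta_reduce
        rw [cut_zero (not_le.1 h)]
        simp
  have hm : Measurable ({q : ℝ × ℝ | |q.2 - q.1| ≤ r}.indicator
      (fun q : ℝ × ℝ => sq f q.2 ^ (p / 2))) :=
    (((sq_meas hf).comp measurable_snd).pow_const _).indicator hset
  simp_rw [e]
  refine ⟨hm.lintegral_prod_right', ?_⟩
  rw [lintegral_lintegral_swap (by exact hm.aemeasurable),
    ← lintegral_const_mul _ ((sq_meas hf).pow_const _)]
  apply lintegral_congr
  intro t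
  have h2 : ∀ c : ℝ, {q : ℝ × ℝ | |q.2 - q.1| ≤ r}.indicator
      (fun q : ℝ × ℝ => sq f q.2 ^ (p / 2)) (c, t) =
      (Icc (t - r) (t + r)).indicator (fun _ => sq f t ^ (p / 2)) c := by
    intro c
    by_cases h : |t - c| ≤ r
    · rw [indicator_of_mem (show (c, t) ∈ {q : ℝ × ℝ | |q.2 - q.1| ≤ r} from h), indicator_of_mem]
      have := abs_le.1 h
      constructor <;> linarith [this.1, this.2]
    · rw [indicator_of_notMem (show (c, t) ∉ {q : ℝ × ℝ | |q.2 - q.1| ≤ r} from h),
        indicator_of_notMem]
      intro hc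
      exact h (abs_le.2 ⟨by linarith [hc.1, hc.2], by linarith [hc.1, hc.2]⟩)
  simp_rw [h2]
  rw [lintegral_indicator measurableSet_Icc, lintegral_const, Measure.restrict_apply_univ,
    Real.volume_Icc, mul_comm]
  congr 2
  ring

end Pool.Agent.W743.BT
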