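import Pool.Agent.W743.BT.Loc
set_option autoImplicit false

/-! One box piece: the estimate. -/

namespace Pool.Agent.W743.BT

open Set Filter MeasureTheory
open scoped Topology ContDiff FourierTransform ENNReal RealInnerProductSpace
open Pool.Agent.W773.BRA (E Bmp chi)

variable {n : ℕ}

lemma finv_cont {m : E n → ℂ} (hm : Integrable m) : Continuous (𝓕⁻ m) := by
  have h1 : Continuous (𝓕 m) :=
    VectorFourier.fourierIntegral_continuous (L := innerₗ (E n)) Real.continuous_fourierChar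
      continuous_inner hm
  have h2 : 𝓕⁻ m = fun x => 𝓕 m (-x) := by
    funext x
    rw [Real.fourierInv_eq_fourier_neg]
  rw [h2]
  exact h1.comp continuous_neg

lemma finv_bdd (m : E n → ℂ) (x : E n) : ‖𝓕⁻ m x‖ ≤ ∫ v : E n, ‖m v‖ := by
  rw [Real.fourierInv_eq_fourier_neg]
  exact VectorFourier.norm_fourierIntegral_le_integral_norm _ _ _ _ _

/-- the far part of the kernel -/
noncomputable def kfar (L : Fin n → ℝ) (m : E n → ℂ) : E n → ℝ≥0∞ :=
  {x : E n | ∃ j, L j ≤ |x j|}.indicator fun x => ‖𝓕⁻ m x‖ₑ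

lemma far_meas (L : Fin n → ℝ) : MeasurableSet {x : E n | ∃ j, L j ≤ |x j|} := by
  have : {x : E n | ∃ j, L j ≤ |x j|} = ⋃ j, {x : E n | L j ≤ |x j|} := by
    ext x; simp
  rw [this]
  exact MeasurableSet.iUnion fun j => measurableSet_le measurable_const (by fun_prop)

lemma kfar_meas (L : Fin n → ℝ) {m : E n → ℂ} (hm : Integrable m) : Measurable (kfar L m) :=
  (finv_cont hm).measurable.enorm.indicator (far_meas L)

/-- pointwise splitting -/
lemma split_pt (hT : S_TK) (hF : S_TENF) {m : E n → ℂ} (hm : Continuous m)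
    (hms : HasCompactSupport m) {M : ℕ} (f : Fin M → Fin n → ℝ → ℂ) (hf : ∀ k j, Nice (f k j))
    (L z : Fin n → ℝ) (x : E n) (hx : x ∈ Box L z) :
    ‖TT m (tens f) x‖ₑ ≤
      ‖TT m (tens (fun k j => cut (z j) (3 / 2 * L j) (f k j))) x‖ₑ +
        ∫⁻ y, kfar L m (x - y) * ‖tens f y‖ₑ := by
  set g : Fin M → Fin n → ℝ → ℂ := fun k j => cut (z j) (3 / 2 * L j) (f k j) with hg
  have hgn : ∀ k j, Nice (g k j) := fun k j => cut_nice (hf k j)
  have hmi : Integrable m := hm.integrable_of_hasCompactSupport hms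
  obtain ⟨-, hfi, -, -⟩ := hF n M f hf
  obtain ⟨-, hgi, -, -⟩ := hF n M g hgn
  have e1 := (hT n m hm hms (tens f) hfi).2.2.2.1 x
  have e2 := (hT n m hm hms (tens g) hgi).2.2.2.1 x
  have hi : ∀ G : E n → ℂ, Integrable G → Integrable (fun y => 𝓕⁻ m (x - y) * G y) := by
    intro G hG
    exact hG.bdd_mul (c := ∫ v : E n, ‖m v‖)
      ((finv_cont hmi).comp (continuous_const.sub continuous_id)).aestronglyMeasurable
      (Eventually.of_forall fun y => finv_bdd m _)
  have e3 : TT m (tens f) x = TT m (tens g) x + ∫ y, 𝓕⁻ m (x - y) * (tens f y - tens g y) := by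
    rw [e1, e2, ← integral_add (hi _ hgi)]
    · apply integral_congr_ae
      filter_upwards with y
      ring
    · exact hi _ (hfi.sub hgi)
  rw [e3]
  refine (enorm_add_le _ _).trans ?_
  gcongr
  refine (enorm_integral_le_lintegral_enorm _).trans ?_
  apply lintegral_mono
  intro y
  dsimp only
  rw [enorm_mul]
  by_cases hy : ∀ j, |y j - z j| ≤ 3 / 2 * L j
  · have : tens g y = tens f y := by
      unfold tens
      apply Finset.sum_congr rfl
      intro k _
      apply Finset.prod_congr rfl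
      intro j _
      exact cut_eq (hy j)
    rw [this, sub_self]
    simp
  · push Not at hy
    obtain ⟨j, hj⟩ := hy
    have h0 : tens g y = 0 := by
      unfold tens
      apply Finset.sum_eq_zero
      intro k _
      apply Finset.prod_eq_zero (Finset.mem_univ j)
      exact cut_zero hj
    have hfar : (x - y) ∈ {x : E n | ∃ j, L j ≤ |x j|} := by
      refine ⟨j, ?_⟩
      have h1 := hx j
      have h2 : (x - y) j = x j - y j := rfl
      rw [h2]
      have h3 : |y j - z j| ≤ |x j - y j| + |x j - z j| := by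
        have := abs_sub_le (y j) (x j) (z j)
        rwa [abs_sub_comm (y j) (x j)] at this
      linarith
    rw [h0, sub_zero]
    unfold kfar
    rw [indicator_of_mem hfar]

theorem loc (hA : S_NEARA) (hB : S_NEARB) (hK : S_KER) (hM : S_MK) (hT : S_TK) (hF : S_TENF)
    (hY : S_YOUNG) : S_LOC := by
  intro n hn p hp h hh ε hε
  have hp0 : 0 < p := by linarith
  have hn0 : (0 : ℝ) < n := by
    have : (2 : ℝ) ≤ n := by exact_mod_cast hn
    linarith
  have hnear : Near n p h := by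
    rcases le_total p 2 with h2 | h2
    · exact hA n hn p hp h2 h hh
    · exact hB n hn p h2 h hh
  obtain ⟨C1, hC1, H1⟩ := hnear
  obtain ⟨C2, hC2, H2⟩ := hK n h hh (ε / (n * p)) (by positivity)
  refine ⟨2 ^ (p - 1) * (C1 * 3 ^ n + C2 ^ p), by positivity, ?_⟩
  intro N K κ M f hN h4 h4' hκ hf
  have hN0 : 0 < N := by linarith
  set Λ : ℝ := N ^ (ε / (n * p)) with hΛ
  have hΛ1 : 1 ≤ Λ := Real.one_le_rpow hN (by positivity)
  set L : Fin n → ℝ := fun j => Len N Λ (κ j) with hL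
  have hL0 : ∀ j, 0 < L j := fun j => by
    rw [hL]; simp only [Len]; positivity
  set m : E n → ℂ := mk h N K κ with hm
  obtain ⟨hmc, hms, -, -⟩ := (hM n h hh N K hN).1 κ
  have hmc' : Continuous m := hmc.continuous
  have hmi : Integrable m := hmc'.integrable_of_hasCompactSupport hms
  obtain ⟨hfm, hfi, -, -⟩ := hF n M f hf
  obtain ⟨hTc, -, -, -, -⟩ := hT n m hmc' hms (tens f) hfi
  set k := kfar L m with hk
  have hkm : Measurable k := kfar_meas L hmi
  set R : E n → ℝ≥0∞ := fun x => ∫⁻ y, k (x - y) * ‖tens f y‖ₑ with hR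
  have hRm : Measurable R := by
    have : Measurable (fun q : E n × E n => k (q.1 - q.2) * ‖tens f q.2‖ₑ) :=
      (hkm.comp (measurable_fst.sub measurable_snd)).mul (hfm.comp measurable_snd).enorm
    exact this.lintegral_prod_right'
  set I : Fin n → ℝ≥0∞ := fun j => ∫⁻ t, sq (fun k => f k j) t ^ (p / 2) with hI
  set γ : Fin n → ℝ → ℝ≥0∞ := fun j c =>
    ∫⁻ t, sq (fun k => cut c (3 / 2 * L j) (f k j)) t ^ (p / 2) with hγ
  have hγm : ∀ j, Measurable (γ j) := fun j =>
    (avg_cut (fun k => f k j) (fun k => (hf k j).1) hp0 (by have := hL0 j; positivity)).1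
  have hγi : ∀ j, ∫⁻ c, γ j c = ENNReal.ofReal (3 * L j) * I j := fun j => by
    have := (avg_cut (fun k => f k j) (fun k => (hf k j).1) hp0 (r := 3 / 2 * L j)
      (by have := hL0 j; positivity)).2
    rw [show 2 * (3 / 2 * L j) = 3 * L j by ring] at this
    exact this
  set D : ℝ≥0∞ := ENNReal.ofReal (C1 * Λ ^ ((n : ℝ) * p) * N ^ (p * Ep n p)) with hD
  set V : ℝ≥0∞ := ∏ j, ENNReal.ofReal (L j) with hV
  have hV0 : V ≠ 0 := by
    rw [hV, Finset.prod_ne_zero_iff]
    intro j _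
    simpa using hL0 j
  have hVt : V ≠ ⊤ := by
    rw [hV]
    exact ENNReal.prod_ne_top fun j _ => ENNReal.ofReal_ne_top
  set c2 : ℝ≥0∞ := (2 : ℝ≥0∞) ^ (p - 1) with hc2
  have hc2t : c2 ≠ ⊤ := by
    rw [hc2]
    exact ENNReal.rpow_ne_top_of_nonneg (by linarith) (by norm_num)
  have hz : ∀ z : Fin n → ℝ, ∫⁻ x in Box L z, ‖TT m (tens f) x‖ₑ ^ p ≤
      c2 * (D * ∏ j, γ j (z j) + ∫⁻ x in Box L z, R x ^ p) := by
    intro z
    have h1 : ∫⁻ x in Box L z, ‖TT m (tens f) x‖ₑ ^ p ≤ ∫⁻ x in Box L z, c2 *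
        (‖TT m (tens (fun k j => cut (z j) (3 / 2 * L j) (f k j))) x‖ₑ ^ p + R x ^ p) := by
      apply setLIntegral_mono' (box_meas L z)
      intro x hx
      refine (ENNReal.rpow_le_rpow (split_pt hT hF hmc' hms f hf L z x hx) hp0.le).trans ?_
      exact ENNReal.rpow_add_le_mul_rpow_add_rpow _ _ hp.le
    refine h1.trans ?_
    rw [lintegral_const_mul' _ _ hc2t]
    gcongr
    rw [lintegral_add_right _ (hRm.pow_const _)]
    gcongr
    have h2 := H1 N K κ Λ M (fun k j => cut (z j) (3 / 2 * L j) (f k j)) z hN h4 h4' hκ hΛ1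
      (fun k j => cut_nice (hf k j)) (fun k j t ht => cut_zero ht)
    exact h2
  have hall : ∫⁻ z : Fin n → ℝ, ∫⁻ x in Box L z, ‖TT m (tens f) x‖ₑ ^ p ≤
      ∫⁻ z : Fin n → ℝ, c2 * (D * ∏ j, γ j (z j) + ∫⁻ x in Box L z, R x ^ p) :=
    lintegral_mono hz
  have hprodm : Measurable (fun z : Fin n → ℝ => D * ∏ j, γ j (z j)) :=
    (Finset.measurable_prod _ fun j _ => (hγm j).comp (measurable_pi_apply j)).const_mul D
  rw [avg_box _ (hTc.measurable.enorm.pow_const p), lintegral_const_mul' _ _ hc2t,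
    lintegral_add_left hprodm, lintegral_const_mul' _ _ ENNReal.ofReal_ne_top,
    lintegral_fin_prod γ hγm, avg_box _ (hRm.pow_const p)] at hall
  have e1 : ∏ j, ∫⁻ c, γ j c = V * (3 ^ n * ∏ j, I j) := by
    simp_rw [hγi]
    rw [Finset.prod_mul_distrib, hV]
    have : ∀ j, ENNReal.ofReal (3 * L j) = 3 * ENNReal.ofReal (L j) := fun j => by
      rw [ENNReal.ofReal_mul (by norm_num)]
      norm_num
    simp_rw [this]
    rw [Finset.prod_mul_distrib, Finset.prod_const, Finset.card_univ, Fintype.card_fin]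
    ring
  rw [e1] at hall
  have e2 : c2 * (D * (V * (3 ^ n * ∏ j, I j)) + V * ∫⁻ x, R x ^ p) =
      V * (c2 * (D * (3 ^ n * ∏ j, I j) + ∫⁻ x, R x ^ p)) := by ring
  rw [hV] at e2
  rw [hV] at hall
  rw [e2] at hall
  rw [← hV] at hall
  have hmain := (ENNReal.mul_le_mul_iff_right hV0 hVt).1 hall
  refine hmain.trans ?_
  have hR2 : ∫⁻ x, R x ^ p ≤ ENNReal.ofReal (C2 ^ p) * ∏ j, I j := by
    have h1 := hY n p hp.le k (fun y => ‖tens f y‖ₑ) hkm hfm.enorm
    refine h1.trans ?_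
    have h2 : ∫⁻ x, k x ≤ ENNReal.ofReal C2 := by
      have := H2 N K κ hN h4 hκ
      rw [hk]
      unfold kfar
      rw [lintegral_indicator (far_meas L)]
      exact this
    have h3 : ∫⁻ y, ‖tens f y‖ₑ ^ p ≤ ∏ j, I j := by
      calc ∫⁻ y, ‖tens f y‖ₑ ^ p ≤ ∫⁻ y : E n, ∏ j, sq (fun k => f k j) (y j) ^ (p / 2) :=
            lintegral_mono fun y => tens_rpow_le hn hp0 f y
        _ = ∏ j, I j := lint_E_prod (fun j t => sq (fun k => f k j) t ^ (p / 2))
            fun j => (sq_meas fun k => (hf k j).1).pow_const _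
    rw [← ENNReal.ofReal_rpow_of_nonneg hC2.le hp0.le]
    gcongr
  have hΛe : Λ ^ ((n : ℝ) * p) = N ^ ε := by
    rw [hΛ, ← Real.rpow_mul hN0.le]
    congr 1
    field_simp
  have hNe : 1 ≤ N ^ (p * Ep n p + ε) := by
    apply Real.one_le_rpow hN
    have : 0 ≤ Ep n p := le_max_left _ _
    positivity
  have hDe : D = ENNReal.ofReal (C1 * N ^ (p * Ep n p + ε)) := by
    rw [hD, hΛe]
    congr 1
    rw [Real.rpow_add hN0]
    ring
  have h3n : (3 : ℝ≥0∞) ^ n = ENNReal.ofReal (3 ^ n) := by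
    rw [ENNReal.ofReal_pow (by norm_num)]
    norm_num
  have hc2e : c2 = ENNReal.ofReal (2 ^ (p - 1)) := by
    rw [hc2, ← ENNReal.ofReal_rpow_of_pos (by norm_num)]
    norm_num
  calc c2 * (D * (3 ^ n * ∏ j, I j) + ∫⁻ x, R x ^ p)
      ≤ c2 * (D * (3 ^ n * ∏ j, I j) + ENNReal.ofReal (C2 ^ p) * ∏ j, I j) := by gcongr
    _ = (c2 * (D * 3 ^ n + ENNReal.ofReal (C2 ^ p))) * ∏ j, I j := by ring
    _ ≤ _ := by
        gcongr
        rw [hDe, h3n, hc2e, ← ENNReal.ofReal_mul (by positivity), ← ENNReal.ofReal_add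
          (by positivity) (by positivity), ← ENNReal.ofReal_mul (by positivity)]
        apply ENNReal.ofReal_le_ofReal
        rw [mul_assoc (2 ^ (p - 1) : ℝ)]
        apply mul_le_mul_of_nonneg_left _ (by positivity)
        have : C2 ^ p ≤ C2 ^ p * N ^ (p * Ep n p + ε) :=
          le_mul_of_one_le_right (by positivity) hNe
        nlinarith

end Pool.Agent.W743.BT
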